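import Pool.Agent.H332.LL.Defs

/-! # Project LL (helper332): one dimensional Helly for the slopes -/

set_option autoImplicit false

open Set

namespace Pool.Agent.H332.LL

namespace HellyH720

theorem C_sub_T {K : Set P3} {x d : P3} (h : d ∈ C K x) : d ∈ T K x := by
  obtain ⟨t, ht, h⟩ := h
  exact ⟨t, ht, interior_subset h⟩

/-- convex combination -/
theorem combo {K : Set P3} (hK : Convex ℝ K) {x : P3} {v : P2} {k k0 k1 α β : ℝ}
    (h0 : (v, k0) ∈ C K x) (h1 : (v, k1) ∈ T K x) (hα : 0 < α) (hβ : 0 ≤ β)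
    (hk : (α + β) * k = α * k0 + β * k1) : (v, k) ∈ C K x := by
  obtain ⟨t0, ht0, h0⟩ := h0
  obtain ⟨t1, ht1, h1⟩ := h1
  have hD : 0 < α * t1 + β * t0 := by positivity
  refine ⟨(α + β) * t0 * t1 / (α * t1 + β * t0), by positivity, ?_⟩
  have h2 := hK.combo_interior_self_mem_interior h0 h1 (a := α * t1 / (α * t1 + β * t0))
    (b := β * t0 / (α * t1 + β * t0)) (by positivity) (by positivity) (by
      rw [← add_div, div_self hD.ne'])
  have h3 : (α * t1 / (α * t1 + β * t0)) • (x + t0 • ((v, k0) : P3)) +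
      (β * t0 / (α * t1 + β * t0)) • (x + t1 • ((v, k1) : P3)) =
      x + ((α + β) * t0 * t1 / (α * t1 + β * t0)) • ((v, k) : P3) := by
    obtain ⟨⟨x1, x2⟩, x3⟩ := x
    obtain ⟨v1, v2⟩ := v
    simp only [Prod.smul_mk, Prod.mk_add_mk, smul_eq_mul, Prod.mk.injEq]
    refine ⟨⟨?_, ?_⟩, ?_⟩
    · field_simp
      ring
    · field_simp
      ring
    · field_simp
      linear_combination (-(t0 * t1)) * hk
  rw [h3] at h2
  exact h2

theorem combo_right {K : Set P3} (hK : Convex ℝ K) {x : P3} {v : P2} {k k0 k1 : ℝ}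
    (h0 : (v, k0) ∈ C K x) (h1 : (v, k1) ∈ T K x) (hl : k0 ≤ k) (hr : k < k1) :
    (v, k) ∈ C K x :=
  combo hK h0 h1 (α := k1 - k) (β := k - k0) (by linarith) (by linarith) (by ring)

theorem combo_left {K : Set P3} (hK : Convex ℝ K) {x : P3} {v : P2} {k k0 k1 : ℝ}
    (h0 : (v, k0) ∈ C K x) (h1 : (v, k1) ∈ T K x) (hl : k1 < k) (hr : k ≤ k0) :
    (v, k) ∈ C K x :=
  combo hK h0 h1 (α := k - k1) (β := k0 - k) (by linarith) (by linarith) (by ring)

/-- the cone `C` is open in the slope -/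
theorem exists_pair {K : Set P3} {x : P3} {v : P2} {k0 : ℝ} (h0 : (v, k0) ∈ C K x) :
    ∃ k l : ℝ, (v, k) ∈ T K x ∧ (v, l) ∈ T K x ∧ l < k := by
  obtain ⟨t0, ht0, h0⟩ := h0
  have hc : Continuous fun k : ℝ => x + t0 • ((v, k) : P3) := by fun_prop
  have hopen : IsOpen ((fun k : ℝ => x + t0 • ((v, k) : P3)) ⁻¹' interior K) :=
    isOpen_interior.preimage hc
  obtain ⟨ε, hε, hball⟩ := Metric.isOpen_iff.1 hopen k0 h0
  have h1 : k0 + ε / 2 ∈ Metric.ball k0 ε := by
    rw [Metric.mem_ball, Real.dist_eq, add_sub_cancel_left, abs_of_pos (by linarith)]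
    linarith
  exact ⟨k0 + ε / 2, k0, ⟨t0, ht0, interior_subset (hball h1)⟩, ⟨t0, ht0, interior_subset h0⟩,
    by linarith⟩

end HellyH720

open HellyH720 in
/-- one dimensional Helly -/
theorem helly : S_helly := by
  intro p z K hB J v hC hL
  by_contra hcon
  have hcon' : ∀ i ∈ J, ∀ j ∈ J, i ≠ j → ¬ Below p z K v i j := by
    intro i hi j hj hij hb
    exact hcon ⟨i, hi, j, hj, hij, hb⟩
  have hex : ∀ i j : ℤ, ∃ k l : ℝ, i ∈ J → j ∈ J →
      (v, k) ∈ T K (vx p z i) ∧ (v, l) ∈ T K (vx p z j) ∧ l < k := by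
    intro i j
    by_cases hi : i ∈ J
    · by_cases hj : j ∈ J
      · by_cases hij : i = j
        · subst hij
          obtain ⟨k0, hk0⟩ := hC i hi
          obtain ⟨k, l, h1, h2, h3⟩ := exists_pair hk0
          exact ⟨k, l, fun _ _ => ⟨h1, h2, h3⟩⟩
        · have h1 := hcon' i hi j hj hij
          unfold Below at h1
          push Not at h1
          obtain ⟨k, l, h2, h3, h4⟩ := h1
          exact ⟨k, l, fun _ _ => ⟨h2, h3, h4⟩⟩
      · exact ⟨0, 0, fun _ h => absurd h hj⟩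
    · exact ⟨0, 0, fun h => absurd h hi⟩
  choose k l hkl using hex
  have hne : J.Nonempty := by
    rw [Finset.nonempty_iff_ne_empty]
    intro h
    apply hL
    refine ⟨0, fun i hi => ?_⟩
    rw [h] at hi
    exact absurd hi (Finset.notMem_empty i)
  obtain ⟨U, hU⟩ : ∃ U : ℤ → ℝ, U = fun i => J.sup' hne (fun j => k i j) := ⟨_, rfl⟩
  obtain ⟨L, hLd⟩ : ∃ L : ℤ → ℝ, L = fun j => J.inf' hne (fun i => l i j) := ⟨_, rfl⟩
  have hUT : ∀ i ∈ J, (v, U i) ∈ T K (vx p z i) := by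
    intro i hi
    obtain ⟨j, hj, hji⟩ := Finset.exists_mem_eq_sup' hne (fun j => k i j)
    rw [hU]
    show (v, J.sup' hne fun j => k i j) ∈ T K (vx p z i)
    rw [hji]
    exact (hkl i j hi hj).1
  have hLT : ∀ j ∈ J, (v, L j) ∈ T K (vx p z j) := by
    intro j hj
    obtain ⟨i, hi, hij⟩ := Finset.exists_mem_eq_inf' hne (fun i => l i j)
    rw [hLd]
    show (v, J.inf' hne fun i => l i j) ∈ T K (vx p z j)
    rw [hij]
    exact (hkl i j hi hj).2.1
  have hLU : ∀ i ∈ J, ∀ j ∈ J, L j < U i := by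
    intro i hi j hj
    have h1 : L j ≤ l i j := by
      rw [hLd]
      exact Finset.inf'_le (fun i => l i j) hi
    have h2 : k i j ≤ U i := by
      rw [hU]
      exact Finset.le_sup' (fun j => k i j) hj
    exact (h1.trans_lt (hkl i j hi hj).2.2).trans_le h2
  have hAB : J.sup' hne L < J.inf' hne U := by
    rw [Finset.sup'_lt_iff]
    intro j hj
    rw [Finset.lt_inf'_iff]
    intro i hi
    exact hLU i hi j hj
  apply hL
  refine ⟨(J.sup' hne L + J.inf' hne U) / 2, fun i hi => ?_⟩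
  have h1 : L i ≤ J.sup' hne L := Finset.le_sup' L hi
  have h2 : J.inf' hne U ≤ U i := Finset.inf'_le U hi
  obtain ⟨k0, hk0⟩ := hC i hi
  rcases le_or_gt k0 ((J.sup' hne L + J.inf' hne U) / 2) with h3 | h3
  · exact combo_right hB.conv hk0 (hUT i hi) h3 (by linarith)
  · exact combo_left hB.conv hk0 (hLT i hi) (by linarith) h3.le

end Pool.Agent.H332.LL
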